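import Mathlib

set_option autoImplicit false

/-!
Two trees with adjoint maps (MP_a46c6f_co, (TREE), corank 2). A tree is given by its adjacency function
over `ZMod 2`, the kernel of its Laplacian and a cut function for every edge.
-/

namespace Pool.Agent.H43.TT

open Finset

/-- the Laplacian mod 2 -/
def lap {M : Type} [Fintype M] (A : M → M → ZMod 2) (S : M → ZMod 2) (v : M) : ZMod 2 :=
  ∑ u, A v u * (S v + S u)

/-- `χ` is the indicator of the `v`-side of the edge `u v`, and `u v` is the only edge between the two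
sides -/
def IsCut {M : Type} (A : M → M → ZMod 2) (u v : M) (χ : M → ZMod 2) : Prop :=
  χ u = 0 ∧ χ v = 1 ∧ ∀ x y, A x y = 1 → χ x ≠ χ y → (x = u ∧ y = v) ∨ (x = v ∧ y = u)

/-- a tree -/
structure Tr {M : Type} [Fintype M] (A : M → M → ZMod 2) : Prop where
  symm : ∀ u v, A u v = A v u
  irrefl : ∀ u, A u u = 0
  ker : ∀ S : M → ZMod 2, (∀ v, lap A S v = 0) → ∀ u v, S u = S v
  cut : ∀ u v, A u v = 1 → ∃ χ : M → ZMod 2, IsCut A u v χ

lemma z2 (a : ZMod 2) : a = 0 ∨ a = 1 := by revert a; decide

lemma add_eq_zero' {a b : ZMod 2} : a + b = 0 ↔ a = b := by revert a b; decide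

lemma add_eq_one' {a b : ZMod 2} : a + b = 1 ↔ a ≠ b := by revert a b; decide

lemma ne_one {a : ZMod 2} (h : a ≠ 1) : a = 0 := by revert a; decide

lemma ne_zero' {a : ZMod 2} (h : a ≠ 0) : a = 1 := by revert a; decide

section one
variable {M : Type} [Fintype M] [DecidableEq M] {A : M → M → ZMod 2}

lemma lap_add (S T : M → ZMod 2) (v : M) :
    lap A (fun x => S x + T x) v = lap A S v + lap A T v := by
  unfold lap
  rw [← Finset.sum_add_distrib]
  refine Finset.sum_congr rfl fun u _ => ?_
  ring

lemma lap_const (c : ZMod 2) (v : M) : lap A (fun _ => c) v = 0 := by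
  unfold lap
  refine Finset.sum_eq_zero fun u _ => ?_
  have : c + c = 0 := by revert c; decide
  rw [this, mul_zero]

lemma pair (hs : ∀ u v, A u v = A v u) (S T : M → ZMod 2) :
    ∑ v, T v * lap A S v = ∑ v, S v * lap A T v := by
  unfold lap
  simp only [Finset.mul_sum]
  have e1 : ∀ (P Q : M → ZMod 2), ∑ v, ∑ u, P v * (A v u * (Q v + Q u))
      = ∑ v, ∑ u, P v * A v u * Q v + ∑ v, ∑ u, P v * A v u * Q u := by
    intro P Q
    rw [← Finset.sum_add_distrib]
    refine Finset.sum_congr rfl fun v _ => ?_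
    rw [← Finset.sum_add_distrib]
    refine Finset.sum_congr rfl fun u _ => ?_
    ring
  rw [e1, e1]
  congr 1
  · refine Finset.sum_congr rfl fun v _ => ?_
    refine Finset.sum_congr rfl fun u _ => ?_
    ring
  · rw [Finset.sum_comm]
    refine Finset.sum_congr rfl fun v _ => ?_
    refine Finset.sum_congr rfl fun u _ => ?_
    rw [hs u v]; ring

lemma sum_lap (hs : ∀ u v, A u v = A v u) (S : M → ZMod 2) : ∑ v, lap A S v = 0 := by
  have := pair hs S (fun _ => 1)
  simp only [one_mul, lap_const, mul_zero, Finset.sum_const_zero] at this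
  exact this

lemma lap_cut (hs : ∀ u v, A u v = A v u) {u v : M} (huv : A u v = 1) {χ : M → ZMod 2}
    (h : IsCut A u v χ) (x : M) :
    lap A χ x = (if x = u then 1 else 0) + (if x = v then 1 else 0) := by
  have hne : u ≠ v := by
    rintro rfl
    have := h.1.symm.trans h.2.1
    exact absurd this (by decide)
  have key : ∀ y, A x y * (χ x + χ y) ≠ 0 → (x = u ∧ y = v) ∨ (x = v ∧ y = u) := by
    intro y hy
    have h1 : A x y = 1 := by
      rcases z2 (A x y) with h0 | h1
      · rw [h0, zero_mul] at hy; exact absurd rfl hy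
      · exact h1
    refine h.2.2 x y h1 fun he => hy ?_
    rw [he]
    have : χ y + χ y = 0 := by generalize χ y = c; revert c; decide
    rw [this, mul_zero]
  unfold lap
  by_cases hxu : x = u
  · subst hxu
    rw [Finset.sum_eq_single v]
    · rw [huv, h.1, h.2.1]; simp [hne]
    · intro y _ hy
      by_contra h0
      rcases key y h0 with ⟨_, h2⟩ | ⟨h1, _⟩
      · exact hy h2
      · exact hne h1
    · intro h0; exact absurd (Finset.mem_univ _) h0
  · by_cases hxv : x = v
    · subst hxv
      rw [Finset.sum_eq_single u]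
      · rw [hs x u, huv, h.1, h.2.1]; simp [hxu]
      · intro y _ hy
        by_contra h0
        rcases key y h0 with ⟨h1, _⟩ | ⟨_, h2⟩
        · exact hxu h1
        · exact hy h2
      · intro h0; exact absurd (Finset.mem_univ _) h0
    · rw [if_neg hxu, if_neg hxv, add_zero]
      refine Finset.sum_eq_zero fun y _ => ?_
      by_contra h0
      rcases key y h0 with ⟨h1, _⟩ | ⟨h1, _⟩
      · exact hxu h1
      · exact hxv h1

/-- the change of `S` along an edge -/
lemma cut_pair (hs : ∀ u v, A u v = A v u) {u v : M} (huv : A u v = 1) {χ : M → ZMod 2}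
    (h : IsCut A u v χ) (S : M → ZMod 2) : S u + S v = ∑ x, χ x * lap A S x := by
  rw [pair hs S χ]
  simp only [lap_cut hs huv h, mul_add, mul_ite, mul_one, mul_zero, Finset.sum_add_distrib,
    Finset.sum_ite_eq', Finset.mem_univ, if_true]

/-- a function whose Laplacian vanishes on one side of an edge except at the end of the edge is constant
on that side -/
lemma side_const (hT : Tr A) {u v : M} (huv : A u v = 1) {χ : M → ZMod 2} (h : IsCut A u v χ)
    (S : M → ZMod 2) (c : ZMod 2) (s : M) (hs : (c = 0 ∧ s = u) ∨ (c = 1 ∧ s = v))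
    (hL : ∀ x, χ x = c → x ≠ s → lap A S x = 0) : ∀ x, χ x = c → S x = S s := by
  have hcs : χ s = c := by
    rcases hs with ⟨h1, h2⟩ | ⟨h1, h2⟩
    · rw [h1, h2]; exact h.1
    · rw [h1, h2]; exact h.2.1
  set S' : M → ZMod 2 := fun x => if χ x = c then S x + S s else 0 with hS'
  have hcc : S s + S s = 0 := by generalize S s = c; revert c; decide
  have hs0 : S' s = 0 := by simp only [hS', hcs, if_true, hcc]
  -- an edge between the two sides joins `s` to a vertex off the side
  have hcross : ∀ x y, A x y = 1 → χ x = c → χ y ≠ c → x = s := by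
    intro x y hxy hx hy
    rcases h.2.2 x y hxy (by rw [hx]; exact fun e => hy e.symm) with ⟨h1, h2⟩ | ⟨h1, h2⟩
    · rcases hs with ⟨_, h4⟩ | ⟨h3, _⟩
      · rw [h1, h4]
      · exfalso; rw [h1, h.1, h3] at hx; exact absurd hx (by decide)
    · rcases hs with ⟨h3, _⟩ | ⟨_, h4⟩
      · exfalso; rw [h1, h.2.1, h3] at hx; exact absurd hx (by decide)
      · rw [h1, h4]
  have hlap : ∀ x, x ≠ s → lap A S' x = 0 := by
    intro x hx
    by_cases hxc : χ x = c
    · rw [← hL x hxc hx]
      unfold lap
      refine Finset.sum_congr rfl fun y _ => ?_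
      rcases z2 (A x y) with h0 | h1
      · rw [h0, zero_mul, zero_mul]
      · have hyc : χ y = c := by
          by_contra hyc
          exact hx (hcross x y h1 hxc hyc)
        simp only [hS', hxc, hyc, if_true]
        linear_combination (A x y) * hcc
    · unfold lap
      refine Finset.sum_eq_zero fun y _ => ?_
      rcases z2 (A x y) with h0 | h1
      · rw [h0, zero_mul]
      · by_cases hyc : χ y = c
        · have : y = s := hcross y x (by rw [hT.symm]; exact h1) hyc hxc
          rw [this, hs0]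
          simp only [hS', hxc, if_false, add_zero, mul_zero]
        · simp only [hS', hxc, hyc, if_false, add_zero, mul_zero]
  have hlap' : ∀ x, lap A S' x = 0 := by
    intro x
    by_cases hx : x = s
    · have h1 := sum_lap hT.symm S'
      rw [Finset.sum_eq_single s (fun y _ hy => hlap y hy)
        (fun h0 => absurd (Finset.mem_univ _) h0)] at h1
      rw [hx]; exact h1
    · exact hlap x hx
  intro x hx
  have h1 := hT.ker S' hlap' x s
  rw [hs0] at h1
  simp only [hS', hx, if_true] at h1
  exact add_eq_zero'.mp h1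

/-- no splitting vertex in the tree of the edge `m m'` -/
lemma no_split_side (hT : Tr A) {m m' : M} (hE : A m m' = 1) {χ : M → ZMod 2} (h : IsCut A m m' χ)
    {q q' : M} (hq : χ q = 0) (hq' : χ q' = 1) (S : M → ZMod 2) (hSq : S q = 0) (hSq' : S q' = 0)
    (g : M)
    (hL : ∀ x, lap A S x = (if x = m then S m else 0) + (if x = m' then S m' else 0)
      + (if x = g then 1 else 0)) : False := by
  have hsum := sum_lap hT.symm S
  simp only [hL, Finset.sum_add_distrib, Finset.sum_ite_eq', Finset.mem_univ, if_true] at hsum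
  have hcp := cut_pair hT.symm hE h S
  simp only [hL, mul_add, mul_ite, mul_zero, mul_one, Finset.sum_add_distrib, Finset.sum_ite_eq',
    Finset.mem_univ, if_true, h.1, h.2.1, zero_mul, one_mul, zero_add] at hcp
  -- `S m = χ g`
  have hmg : S m = χ g := by
    have : S m + S m' + (S m' + χ g) = 0 := by
      rw [hcp]; generalize S m' + χ g = c; revert c; decide
    have h2 : S m' + S m' = 0 := by generalize S m' = c; revert c; decide
    apply add_eq_zero'.mp
    linear_combination this - h2
  have hm1 : S m' = χ g + 1 := by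
    rw [hmg] at hsum
    apply add_eq_zero'.mp
    have h2 : χ g + χ g = 0 := by generalize χ g = c; revert c; decide
    linear_combination hsum
  rcases z2 (χ g) with hg | hg
  · -- `S m' = 1`, `g` on the side of `m`
    have := side_const hT hE h S 1 m' (Or.inr ⟨rfl, rfl⟩) (by
      intro x hx hxm
      rw [hL x, if_neg hxm]
      have h1 : x ≠ m := by rintro rfl; rw [h.1] at hx; exact absurd hx (by decide)
      have h2 : x ≠ g := by rintro rfl; rw [hg] at hx; exact absurd hx (by decide)
      rw [if_neg h1, if_neg h2]; simp) q' hq'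
    rw [hSq', hm1, hg] at this
    exact absurd this (by decide)
  · have := side_const hT hE h S 0 m (Or.inl ⟨rfl, rfl⟩) (by
      intro x hx hxm
      rw [hL x, if_neg hxm]
      have h1 : x ≠ m' := by rintro rfl; rw [h.2.1] at hx; exact absurd hx (by decide)
      have h2 : x ≠ g := by rintro rfl; rw [hg] at hx; exact absurd hx (by decide)
      rw [if_neg h1, if_neg h2]; simp) q hq
    rw [hSq, hmg, hg] at this
    exact absurd this (by decide)

/-- no splitting at the root -/
lemma no_split_root (hT : Tr A) {m m' : M} (hE : A m m' = 1) {χ : M → ZMod 2} (h : IsCut A m m' χ)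
    {q q' : M} (hq : χ q = 0) (hq' : χ q' = 1) (S : M → ZMod 2) (hSq : S q = 0) (hSq' : S q' = 0)
    (hL : ∀ x, lap A S x = (if x = m then S m + 1 else 0) + (if x = m' then S m' + 1 else 0)) :
    False := by
  have hsum := sum_lap hT.symm S
  simp only [hL, Finset.sum_add_distrib, Finset.sum_ite_eq', Finset.mem_univ, if_true] at hsum
  have hmm : S m = S m' := by
    apply add_eq_zero'.mp
    have h2 : (1 : ZMod 2) + 1 = 0 := by decide
    linear_combination hsum - h2
  rcases z2 (S m') with h0 | h1
  · have hk := hT.ker (fun x => S x + χ x) (by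
      intro x
      rw [lap_add, hL x, lap_cut hT.symm hE h x, hmm, h0, zero_add]
      generalize (if x = m then (1 : ZMod 2) else 0) = c
      generalize (if x = m' then (1 : ZMod 2) else 0) = d
      revert c d; decide) q q'
    simp only [hSq, hSq', hq, hq'] at hk
    exact absurd hk (by decide)
  · have hk := hT.ker S (by
      intro x
      have h2 : (1 : ZMod 2) + 1 = 0 := by decide
      rw [hL x, hmm, h1, h2]; simp) q m'
    rw [hSq, h1] at hk
    exact absurd hk (by decide)

end one

section two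
variable {M₀ M₁ : Type} [Fintype M₀] [DecidableEq M₀] [Fintype M₁] [DecidableEq M₁]
  {A₀ : M₀ → M₀ → ZMod 2} {A₁ : M₁ → M₁ → ZMod 2}

/-- the commutation relation of the rows of the two trees -/
def Comm (A₀ : M₀ → M₀ → ZMod 2) (A₁ : M₁ → M₁ → ZMod 2) (a : M₁ → M₀) (b : M₀ → M₁) : Prop :=
  ∀ m h, lap A₀ (fun x => if b x = h then 1 else 0) m = lap A₁ (fun y => if a y = m then 1 else 0) h

lemma Comm.swap {a : M₁ → M₀} {b : M₀ → M₁} (hc : Comm A₀ A₁ a b) : Comm A₁ A₀ b a :=
  fun m h => (hc h m).symm

/-- the Laplacian of `ψ ∘ b` for the cut `ψ` of `p p'` -/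
lemma lap_comp (h₁ : Tr A₁) {a : M₁ → M₀} {b : M₀ → M₁} (hc : Comm A₀ A₁ a b)
    {p p' : M₁} (hF : A₁ p p' = 1) {ψ : M₁ → ZMod 2} (h : IsCut A₁ p p' ψ) (x : M₀) :
    lap A₀ (fun y => ψ (b y)) x = (if a p = x then 1 else 0) + (if a p' = x then 1 else 0) := by
  have e1 : lap A₀ (fun y => ψ (b y)) x
      = ∑ h, ψ h * lap A₀ (fun y => if b y = h then 1 else 0) x := by
    unfold lap
    simp only [Finset.mul_sum]
    rw [Finset.sum_comm]
    refine Finset.sum_congr rfl fun u _ => ?_
    have : ∀ h : M₁, ψ h * (A₀ x u * ((if b x = h then (1 : ZMod 2) else 0)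
        + (if b u = h then 1 else 0)))
        = (if b x = h then A₀ x u * ψ h else 0) + (if b u = h then A₀ x u * ψ h else 0) := by
      intro h
      split_ifs <;> ring
    simp only [this, Finset.sum_add_distrib, Finset.sum_ite_eq, Finset.mem_univ, if_true]
    ring
  rw [e1]
  simp only [hc x]
  rw [pair h₁.symm]
  simp only [lap_cut h₁.symm hF h, ite_mul, one_mul, zero_mul, mul_add, mul_ite, mul_one, mul_zero,
    Finset.sum_add_distrib, Finset.sum_ite_eq', Finset.mem_univ, if_true]

/-- a positive pair of edges -/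
def Positive (A₀ : M₀ → M₀ → ZMod 2) (A₁ : M₁ → M₁ → ZMod 2) (a : M₁ → M₀) (b : M₀ → M₁) : Prop :=
  ∃ m m' p p', ∃ χ : M₀ → ZMod 2, ∃ ψ : M₁ → ZMod 2, A₀ m m' = 1 ∧ A₁ p p' = 1 ∧
    IsCut A₀ m m' χ ∧ IsCut A₁ p p' ψ ∧ χ (a p) = 0 ∧ χ (a p') = 1 ∧ ψ (b m) = 0 ∧ ψ (b m') = 1

lemma Positive.swap {a : M₁ → M₀} {b : M₀ → M₁} (h : Positive A₁ A₀ b a) : Positive A₀ A₁ a b := by
  obtain ⟨m, m', p, p', χ, ψ, h1, h2, h3, h4, h5, h6, h7, h8⟩ := h
  exact ⟨p, p', m, m', ψ, χ, h2, h1, h4, h3, h7, h8, h5, h6⟩

/-- without positive pairs an edge `p p'` with `a p ≠ a p'` is mapped to an edge -/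
lemma neg_edge (h₀ : Tr A₀) (h₁ : Tr A₁) {a : M₁ → M₀} {b : M₀ → M₁} (hc : Comm A₀ A₁ a b)
    (hpos : ¬ Positive A₀ A₁ a b) {p p' : M₁} (hF : A₁ p p' = 1) {ψ : M₁ → ZMod 2}
    (h : IsCut A₁ p p' ψ) (hne : a p ≠ a p') :
    A₀ (a p) (a p') = 1 ∧ ∃ χ, IsCut A₀ (a p) (a p') χ ∧ ∀ x, ψ (b x) = χ x + 1 := by
  set f : M₀ → ZMod 2 := fun y => ψ (b y) with hf
  have hLf : ∀ x, lap A₀ f x = (if a p = x then 1 else 0) + (if a p' = x then 1 else 0) :=
    fun x => lap_comp h₁ hc hF h x
  -- the change of `f` along an edge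
  have hchg : ∀ u v χ, A₀ u v = 1 → IsCut A₀ u v χ → f u + f v = χ (a p) + χ (a p') := by
    intro u v χ huv hχ
    rw [cut_pair h₀.symm huv hχ f]
    simp only [hLf, mul_add, mul_ite, mul_one, mul_zero, Finset.sum_add_distrib,
      Finset.sum_ite_eq, Finset.mem_univ, if_true]
  have hneg : ∀ u v χ, A₀ u v = 1 → IsCut A₀ u v χ → χ (a p) = 0 → χ (a p') = 1 →
      f u = 1 ∧ f v = 0 := by
    intro u v χ huv hχ h1 h2
    have h3 := hchg u v χ huv hχ
    rw [h1, h2, zero_add] at h3
    rcases z2 (f u) with h4 | h4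
    · exfalso
      rw [h4, zero_add] at h3
      exact hpos ⟨u, v, p, p', χ, ψ, huv, hF, hχ, h, h1, h2, h4, h3⟩
    · refine ⟨h4, ?_⟩
      rw [h4] at h3
      revert h3; generalize f v = c; revert c; decide
  -- neighbours with a different value
  have hnb : ∀ x, lap A₀ f x = 1 → ∃ v, A₀ x v = 1 ∧ f x ≠ f v := by
    intro x hx
    by_contra hcon
    push Not at hcon
    have : lap A₀ f x = 0 := by
      unfold lap
      refine Finset.sum_eq_zero fun v _ => ?_
      rcases z2 (A₀ x v) with h0 | h1
      · rw [h0, zero_mul]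
      · rw [hcon v h1]
        have : f v + f v = 0 := by generalize f v = c; revert c; decide
        rw [this, mul_zero]
    rw [this] at hx
    exact absurd hx (by decide)
  have hL0 : lap A₀ f (a p) = 1 := by
    rw [hLf]; simp [hne.symm]
  obtain ⟨v, hv1, hv2⟩ := hnb _ hL0
  obtain ⟨χ, hχ⟩ := h₀.cut _ _ hv1
  have h3 := hchg _ _ χ hv1 hχ
  rw [add_eq_one'.mpr hv2, hχ.1, zero_add] at h3
  obtain ⟨h4, h5⟩ := hneg _ _ χ hv1 hχ hχ.1 h3.symm
  have hvp : v ≠ a p := by
    rintro rfl
    exact hv2 rfl
  have hv : v = a p' := by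
    by_contra hvne
    have hLv : lap A₀ f v = 0 := by
      rw [hLf, if_neg (fun e => hvp e.symm), if_neg (fun e => hvne e.symm), add_zero]
    -- another neighbour `u` of `v` with `f u = 1`
    have hex : ∃ u, u ≠ a p ∧ A₀ v u = 1 ∧ f u = 1 := by
      by_contra hcon
      push Not at hcon
      have : lap A₀ f v = 1 := by
        unfold lap
        rw [Finset.sum_eq_single (a p)]
        · rw [h₀.symm, hv1, h4, h5]; decide
        · intro u _ hu
          rcases z2 (A₀ v u) with h0 | h1
          · rw [h0, zero_mul]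
          · have := hcon u hu h1
            have := ne_one this
            rw [this, h5]; simp
        · intro h0; exact absurd (Finset.mem_univ _) h0
      rw [this] at hLv
      exact absurd hLv (by decide)
    obtain ⟨u, hu, hvu, hfu⟩ := hex
    obtain ⟨χ', hχ'⟩ := h₀.cut _ _ hvu
    have h6 := hchg _ _ χ' hvu hχ'
    rw [h5, hfu, zero_add] at h6
    have h7 : χ' (a p) = 0 := by
      by_contra h8
      have h9 : χ' (a p) ≠ χ' v := by rw [hχ'.1]; exact h8
      rcases hχ'.2.2 _ _ hv1 h9 with ⟨h10, _⟩ | ⟨h10, _⟩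
      · exact hvp h10.symm
      · exact hu h10.symm
    rw [h7, zero_add] at h6
    have := (hneg _ _ χ' hvu hχ' h7 h6.symm).1
    rw [h5] at this
    exact absurd this (by decide)
  subst hv
  refine ⟨hv1, χ, hχ, ?_⟩
  have hk := h₀.ker (fun x => f x + χ x) (by
    intro x
    rw [lap_add, hLf x, lap_cut h₀.symm hv1 hχ x]
    simp only [eq_comm (a := x)]
    generalize (if a p = x then (1 : ZMod 2) else 0) = c
    generalize (if a p' = x then (1 : ZMod 2) else 0) = d
    revert c d; decide)
  intro x
  have h6 := hk x (a p)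
  simp only [h4, hχ.1, add_zero] at h6
  show f x = χ x + 1
  have h7 : χ x + χ x = 0 := by generalize χ x = c; revert c; decide
  linear_combination h6 - h7

/-- **two trees**: the maps are constant, or there is a positive pair, or a pair of edges gives a word
with the letters of one tree only -/
theorem two_trees (h₀ : Tr A₀) (h₁ : Tr A₁) {a : M₁ → M₀} {b : M₀ → M₁} (hc : Comm A₀ A₁ a b) :
    (∀ p p', a p = a p') ∨ Positive A₀ A₁ a b ∨
    (∃ m m' p p', ∃ χ : M₀ → ZMod 2, ∃ ψ : M₁ → ZMod 2, A₀ m m' = 1 ∧ A₁ p p' = 1 ∧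
      IsCut A₀ m m' χ ∧ IsCut A₁ p p' ψ ∧ (∀ x, ψ (b x) = χ x + 1) ∧ ∀ y, χ (a y) = ψ y) := by
  by_cases hpos : Positive A₀ A₁ a b
  · exact Or.inr (Or.inl hpos)
  by_cases hcst : ∀ p p', A₁ p p' = 1 → a p = a p'
  · left
    intro p p'
    have hk := h₁.ker (fun y => if a y = a p then 1 else 0) (by
      intro v
      unfold lap
      refine Finset.sum_eq_zero fun u _ => ?_
      rcases z2 (A₁ v u) with h0 | h1
      · rw [h0, zero_mul]
      · have e1 : a v = a u := hcst v u h1
        simp only [e1]
        generalize (if a u = a p then (1 : ZMod 2) else 0) = c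
        have : c + c = 0 := by revert c; decide
        rw [this, mul_zero]) p p'
    simp only [if_true] at hk
    by_contra hne
    rw [if_neg (fun e => hne e.symm)] at hk
    exact absurd hk (by decide)
  · right; right
    push Not at hcst
    obtain ⟨p, p', hF, hne⟩ := hcst
    obtain ⟨ψ, hψ⟩ := h₁.cut _ _ hF
    obtain ⟨hE, χ, hχ, hbx⟩ := neg_edge h₀ h₁ hc hpos hF hψ hne
    refine ⟨a p, a p', p, p', χ, ψ, hE, hF, hχ, hψ, hbx, ?_⟩
    have hne' : b (a p) ≠ b (a p') := by
      intro he
      have h1 := hbx (a p)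
      have h2 := hbx (a p')
      rw [he, h2, hχ.1, hχ.2.1] at h1
      exact absurd h1 (by decide)
    obtain ⟨hE', χ', hχ', hay⟩ := neg_edge h₁ h₀ hc.swap (fun h => hpos h.swap) hE hχ hne'
    -- `χ'` is the cut of `(b (a p), b (a p')) = (p', p)`
    have h1 : χ (a p) = 0 := hχ.1
    have h2 : χ (a p') = 1 := hχ.2.1
    have h3 : χ' p ≠ χ' p' := by
      intro he
      have h5 := hay p
      have h6 := hay p'
      rw [he] at h5
      rw [← h6, h1, h2] at h5
      exact absurd h5 (by decide)
    have h4 : p = b (a p') ∧ p' = b (a p) := by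
      rcases hχ'.2.2 _ _ hF h3 with ⟨h5, _⟩ | h5
      · exfalso
        have h6 := hbx (a p)
        rw [← h5, hψ.1, hχ.1] at h6
        exact absurd h6 (by decide)
      · exact h5
    have hk := h₁.ker (fun x => ψ x + χ' x) (by
      intro x
      rw [lap_add, lap_cut h₁.symm hF hψ x, lap_cut h₁.symm hE' hχ' x, ← h4.1, ← h4.2]
      generalize (if x = p then (1 : ZMod 2) else 0) = c
      generalize (if x = p' then (1 : ZMod 2) else 0) = d
      revert c d; decide)
    intro y
    have h5 := hk y p
    have h6 : χ' p = 1 := by rw [h4.1]; exact hχ'.2.1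
    simp only [hψ.1, h6, zero_add] at h5
    rw [hay y]
    have h7 : χ' y + χ' y = 0 := by generalize χ' y = c; revert c; decide
    linear_combination h7 - h5

end two

/-- the mod 2 adjacency function of a tree is a `Tr` -/
theorem Tr.of_isTree {M : Type} [Fintype M] [DecidableEq M] (G : SimpleGraph M)
    [DecidableRel G.Adj] (hG : G.IsTree) : Tr (fun u v => if G.Adj u v then (1 : ZMod 2) else 0) := by
  classical
  have hs : ∀ u v, (if G.Adj u v then (1 : ZMod 2) else 0) = if G.Adj v u then 1 else 0 := by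
    intro u v
    simp only [G.adj_comm u v]
  have hadj : ∀ u v, (if G.Adj u v then (1 : ZMod 2) else 0) = 1 → G.Adj u v := by
    intro u v h
    by_contra h0
    rw [if_neg h0] at h
    exact absurd h (by decide)
  have hcut : ∀ u v, (if G.Adj u v then (1 : ZMod 2) else 0) = 1 →
      ∃ χ : M → ZMod 2, IsCut (fun u v => if G.Adj u v then (1 : ZMod 2) else 0) u v χ := by
    intro u v huv
    have huv := hadj u v huv
    have hbr : G.IsBridge s(u, v) := (SimpleGraph.isAcyclic_iff_forall_adj_isBridge.mp hG.isAcyclic) huv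
    have hnr : ¬ (G.deleteEdges {s(u, v)}).Reachable u v := by
      have := (SimpleGraph.isBridge_iff.mp hbr)
      simpa using this
    refine ⟨fun x => if (G.deleteEdges {s(u, v)}).Reachable v x then 1 else 0, ?_, ?_, ?_⟩
    · exact if_neg (fun h => hnr h.symm)
    · exact if_pos (SimpleGraph.Reachable.refl v)
    · intro x y hxy hne
      have hxy := hadj x y hxy
      by_contra hcon
      push Not at hcon
      apply hne
      have hd : (G.deleteEdges {s(u, v)}).Adj x y := by
        rw [SimpleGraph.deleteEdges_adj]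
        refine ⟨hxy, ?_⟩
        simp only [Set.mem_singleton_iff, Sym2.eq_iff]
        rintro (⟨h1, h2⟩ | ⟨h1, h2⟩)
        · exact hcon.1 h1 h2
        · exact hcon.2 h1 h2
      have : (G.deleteEdges {s(u, v)}).Reachable v x ↔ (G.deleteEdges {s(u, v)}).Reachable v y :=
        ⟨fun h => h.trans hd.reachable, fun h => h.trans hd.symm.reachable⟩
      simp only [this]
  refine ⟨hs, fun u => by simp, ?_, hcut⟩
  intro S hS u v
  have hedge : ∀ x y, G.Adj x y → S x = S y := by
    intro x y hxy
    obtain ⟨χ, hχ⟩ := hcut x y (by rw [if_pos hxy])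
    have := cut_pair (A := fun u v => if G.Adj u v then (1 : ZMod 2) else 0) hs
      (by simp [hxy]) hχ S
    simp only [hS, mul_zero, Finset.sum_const_zero] at this
    exact add_eq_zero'.mp this
  obtain ⟨w⟩ := hG.connected.preconnected u v
  induction w with
  | nil => rfl
  | cons h _ ih => exact (hedge _ _ h).trans ih

end Pool.Agent.H43.TT
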