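import Pool.Agent.H98.Code.Defs
import Pool.Agent.H43.TT.Two

set_option autoImplicit false

/-!
The two tree step of (TREE) (MP_a46c6f_co) in the code language: the maps between the two trees are
constant.
-/

namespace Pool.Agent.H43.TT

open Finset Pool.Agent.H98.Code

section
variable {V₀ V₁ : Type} [Fintype V₀] [DecidableEq V₀] [Fintype V₁] [DecidableEq V₁]
  {A₀ : V₀ → V₀ → ZMod 2} {A₁ : V₁ → V₁ → ZMod 2}

/-- no splitting vertex in the first tree -/
lemma piece (h₀ : Tr A₀) (h₁ : Tr A₁) {a : V₁ → V₀} {b : V₀ → V₁} {m m' : V₀} (hE : A₀ m m' = 1)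
    {χ : V₀ → ZMod 2} (hχ : IsCut A₀ m m' χ) {p p' : V₁} (ha : χ (a p) = 0) (ha' : χ (a p') = 1)
    (S : V₀ → ZMod 2) (H : V₁ → ZMod 2) (g : V₀)
    (i1 : ∀ q, lap A₁ H q = (H q + S (a q)) * ((if q = p then 1 else 0) + (if q = p' then 1 else 0)))
    (i2 : H p + S (a p) = 0)
    (i3 : ∀ x, x ≠ g → lap A₀ S x
      = (S x + H (b x)) * ((if x = m then 1 else 0) + (if x = m' then 1 else 0)))
    (i4 : lap A₀ S g = 1) (hgm : g ≠ m) (hgm' : g ≠ m') : False := by
  have hs := sum_lap h₁.symm H
  simp only [i1, mul_add, mul_ite, mul_one, mul_zero, Finset.sum_add_distrib, Finset.sum_ite_eq',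
    Finset.mem_univ, if_true] at hs
  have i2' : H p' + S (a p') = 0 := by
    rw [i2, zero_add] at hs; exact hs
  have hH : ∀ q, lap A₁ H q = 0 := by
    intro q
    rw [i1]
    by_cases h1 : q = p
    · rw [h1, i2, zero_mul]
    · by_cases h2 : q = p'
      · rw [h2, i2', zero_mul]
      · rw [if_neg h1, if_neg h2]; simp
  have hc := h₁.ker H hH
  set κ := H p with hκ
  refine no_split_side h₀ hE hχ ha ha' (fun x => S x + κ) ?_ ?_ g ?_
  · show S (a p) + κ = 0
    rw [add_comm]; exact i2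
  · show S (a p') + κ = 0
    rw [add_comm, hκ, hc p p']; exact i2'
  · intro x
    rw [lap_add, lap_const, add_zero]
    by_cases hx : x = g
    · subst hx
      rw [i4, if_neg hgm, if_neg hgm', if_pos rfl]; simp
    · rw [i3 x hx, hc (b x) p, ← hκ, if_neg hx, add_zero, mul_add]
      congr 1
      · by_cases h1 : x = m
        · rw [if_pos h1, if_pos h1, mul_one, h1]
        · rw [if_neg h1, if_neg h1, mul_zero]
      · by_cases h1 : x = m'
        · rw [if_pos h1, if_pos h1, mul_one, h1]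
        · rw [if_neg h1, if_neg h1, mul_zero]

/-- no splitting at the root -/
lemma piece_root (h₀ : Tr A₀) (h₁ : Tr A₁) {a : V₁ → V₀} {b : V₀ → V₁} {m m' : V₀}
    (hE : A₀ m m' = 1)
    {χ : V₀ → ZMod 2} (hχ : IsCut A₀ m m' χ) {p p' : V₁} (ha : χ (a p) = 0) (ha' : χ (a p') = 1)
    (S : V₀ → ZMod 2) (H : V₁ → ZMod 2)
    (i1 : ∀ q, lap A₁ H q = (H q + S (a q)) * ((if q = p then 1 else 0) + (if q = p' then 1 else 0)))
    (i2 : H p + S (a p) = 0)
    (i3 : ∀ x, lap A₀ S x
      = (S x + H (b x) + 1) * ((if x = m then 1 else 0) + (if x = m' then 1 else 0))) : False := by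
  have hs := sum_lap h₁.symm H
  simp only [i1, mul_add, mul_ite, mul_one, mul_zero, Finset.sum_add_distrib, Finset.sum_ite_eq',
    Finset.mem_univ, if_true] at hs
  have i2' : H p' + S (a p') = 0 := by
    rw [i2, zero_add] at hs; exact hs
  have hH : ∀ q, lap A₁ H q = 0 := by
    intro q
    rw [i1]
    by_cases h1 : q = p
    · rw [h1, i2, zero_mul]
    · by_cases h2 : q = p'
      · rw [h2, i2', zero_mul]
      · rw [if_neg h1, if_neg h2]; simp
  have hc := h₁.ker H hH
  set κ := H p with hκ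
  refine no_split_root h₀ hE hχ ha ha' (fun x => S x + κ) ?_ ?_ ?_
  · show S (a p) + κ = 0
    rw [add_comm]; exact i2
  · show S (a p') + κ = 0
    rw [add_comm, hκ, hc p p']; exact i2'
  · intro x
    rw [lap_add, lap_const, add_zero, i3 x, hc (b x) p, ← hκ, mul_add]
    congr 1
    · by_cases h1 : x = m
      · rw [if_pos h1, if_pos h1, mul_one, h1]
      · rw [if_neg h1, if_neg h1, mul_zero]
    · by_cases h1 : x = m'
      · rw [if_pos h1, if_pos h1, mul_one, h1]
      · rw [if_neg h1, if_neg h1, mul_zero]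

/-- the word of two colourings -/
def wd (A₀ : V₀ → V₀ → ZMod 2) (A₁ : V₁ → V₁ → ZMod 2) (a : V₁ → V₀) (b : V₀ → V₁)
    (φ₀ : V₀ → ZMod 2) (φ₁ : V₁ → ZMod 2) (S : V₀ → ZMod 2) (H : V₁ → ZMod 2) :
    Option (V₀ ⊕ V₁) → K
  | none => 0
  | some (Sum.inl x) => (S x + H (b x), (S x + H (b x)) * φ₀ x + lap A₀ S x)
  | some (Sum.inr q) => (H q + S (a q), (H q + S (a q)) * φ₁ q + lap A₁ H q)

/-- the word `(e; M_0)` -/
def mz (V₁ : Type) (φ₀ : V₀ → ZMod 2) : Option (V₀ ⊕ V₁) → K
  | none => z
  | some (Sum.inl x) => (1, φ₀ x)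
  | some (Sum.inr _) => 0

variable {a : V₁ → V₀} {b : V₀ → V₁} {φ₀ : V₀ → ZMod 2} {φ₁ : V₁ → ZMod 2}

/-- the rows commute -/
lemma comm_of_iso (h₀ : Tr A₀) (h₁ : Tr A₁)
    (hf : ∀ S H S' H', form (wd A₀ A₁ a b φ₀ φ₁ S H) (wd A₀ A₁ a b φ₀ φ₁ S' H') = 0) :
    Comm A₀ A₁ a b := by
  intro m h
  have e := hf (fun x => if x = m then 1 else 0) (fun _ => 0) (fun _ => 0)
    (fun q => if q = h then 1 else 0)
  unfold form at e
  rw [Fintype.sum_option, Fintype.sum_sum_type] at e
  simp only [wd, kf, lap_const, add_zero, zero_add, Prod.fst_zero, Prod.snd_zero, mul_zero] at e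
  have e1 : ∀ x : V₀, (if x = m then (1 : ZMod 2) else 0) * ((if b x = h then 1 else 0) * φ₀ x)
      + ((if x = m then 1 else 0) * φ₀ x + lap A₀ (fun x => if x = m then 1 else 0) x)
        * (if b x = h then 1 else 0)
      = (if b x = h then 1 else 0) * lap A₀ (fun x => if x = m then 1 else 0) x := by
    intro x
    generalize (if x = m then (1 : ZMod 2) else 0) = c
    generalize (if b x = h then (1 : ZMod 2) else 0) = d
    generalize lap A₀ (fun x => if x = m then 1 else 0) x = l
    generalize φ₀ x = f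
    revert c d l f; decide
  have e2 : ∀ x : V₁, (if a x = m then (1 : ZMod 2) else 0) * ((if x = h then 1 else 0) * φ₁ x
      + lap A₁ (fun q => if q = h then 1 else 0) x)
      + ((if a x = m then 1 else 0) * φ₁ x) * (if x = h then 1 else 0)
      = (if a x = m then 1 else 0) * lap A₁ (fun q => if q = h then 1 else 0) x := by
    intro x
    generalize (if a x = m then (1 : ZMod 2) else 0) = c
    generalize (if x = h then (1 : ZMod 2) else 0) = d
    generalize lap A₁ (fun q => if q = h then 1 else 0) x = l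
    generalize φ₁ x = f
    revert c d l f; decide
  simp only [e1, e2] at e
  rw [pair h₀.symm (fun x => if x = m then 1 else 0) (fun x => if b x = h then 1 else 0),
    pair h₁.symm (fun q => if q = h then 1 else 0) (fun x => if a x = m then 1 else 0)] at e
  simp only [ite_mul, one_mul, zero_mul, Finset.sum_ite_eq', Finset.mem_univ, if_true] at e
  exact add_eq_zero'.mp e

/-- no positive pair -/
lemma not_positive (h₀ : Tr A₀) (h₁ : Tr A₁) (L : Submodule (ZMod 2) (Option (V₀ ⊕ V₁) → K))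
    (hcrit : CritAt L none) (hwd : ∀ S H, wd A₀ A₁ a b φ₀ φ₁ S H ∈ L) (hm : mz V₁ φ₀ ∈ L)
    (hall : ∀ u ∈ L, u none = 0 → ∃ S H, u = wd A₀ A₁ a b φ₀ φ₁ S H) : ¬ Positive A₀ A₁ a b := by
  rintro ⟨m, m', p, p', χ, ψ, hE, hF, hχ, hψ, ha, ha', hb, hb'⟩
  have hmm : m ≠ m' := by
    rintro rfl; have := hχ.1.symm.trans hχ.2.1; exact absurd this (by decide)
  have hpp : p ≠ p' := by
    rintro rfl; have := hψ.1.symm.trans hψ.2.1; exact absurd this (by decide)
  set w := wd A₀ A₁ a b φ₀ φ₁ χ (fun q => ψ q + 1) with hw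
  have hwL : w ∈ L := hwd _ _
  have lapH : ∀ q, lap A₁ (fun q => ψ q + 1) q
      = (if q = p then 1 else 0) + (if q = p' then 1 else 0) := by
    intro q
    rw [lap_add, lap_const, add_zero, lap_cut h₁.symm hF hψ]
  have w0 : ∀ x, w (some (Sum.inl x)) = (χ x + (ψ (b x) + 1), (χ x + (ψ (b x) + 1)) * φ₀ x
      + ((if x = m then 1 else 0) + (if x = m' then 1 else 0))) := by
    intro x
    simp only [hw, wd, lap_cut h₀.symm hE hχ]
  have w1 : ∀ q, w (some (Sum.inr q)) = (ψ q + 1 + χ (a q), (ψ q + 1 + χ (a q)) * φ₁ q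
      + ((if q = p then 1 else 0) + (if q = p' then 1 else 0))) := by
    intro q
    simp only [hw, wd, lapH]
  have wn : w none = 0 := by simp only [hw, wd]
  have wm : (w (some (Sum.inl m))).1 = 1 := by rw [w0]; simp only [hχ.1, hb]; decide
  have wm' : (w (some (Sum.inl m'))).1 = 1 := by rw [w0]; simp only [hχ.2.1, hb']; decide
  have wp : (w (some (Sum.inr p))).1 = 1 := by rw [w1]; simp only [hψ.1, ha]; decide
  have wp' : (w (some (Sum.inr p'))).1 = 1 := by rw [w1]; simp only [hψ.2.1, ha']; decide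
  have hne : w ≠ 0 := by
    intro h0; rw [h0] at wm; exact absurd wm (by simp)
  have z0 : ∀ x, χ x + (ψ (b x) + 1) = 0 →
      ((if x = m then (1 : ZMod 2) else 0) + (if x = m' then 1 else 0)) = 0 := by
    intro x h1
    have h2 : x ≠ m := by rintro rfl; rw [w0] at wm; simp only at wm; rw [h1] at wm; exact absurd wm (by decide)
    have h3 : x ≠ m' := by rintro rfl; rw [w0] at wm'; simp only at wm'; rw [h1] at wm'; exact absurd wm' (by decide)
    rw [if_neg h2, if_neg h3, add_zero]
  have z1 : ∀ q, ψ q + 1 + χ (a q) = 0 →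
      ((if q = p then (1 : ZMod 2) else 0) + (if q = p' then 1 else 0)) = 0 := by
    intro q h1
    have h2 : q ≠ p := by rintro rfl; rw [w1] at wp; simp only at wp; rw [h1] at wp; exact absurd wp (by decide)
    have h3 : q ≠ p' := by rintro rfl; rw [w1] at wp'; simp only at wp'; rw [h1] at wp'; exact absurd wp' (by decide)
    rw [if_neg h2, if_neg h3, add_zero]
  have hzf : ZFree w := by
    rintro (_ | x | q) hz
    · rw [wn] at hz; exact absurd hz (by decide)
    · rw [w0] at hz
      have h1 := congrArg Prod.fst hz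
      simp only [z] at h1
      rw [h1, z0 x h1] at hz
      have := congrArg Prod.snd hz
      simp [z] at this
    · rw [w1] at hz
      have h1 := congrArg Prod.fst hz
      simp only [z] at h1
      rw [h1, z1 q h1] at hz
      have := congrArg Prod.snd hz
      simp [z] at this
  obtain ⟨g, c₁, hc₁, c₂, hc₂, hsum, hg₁, hg₂, hdis⟩ := hcrit w hwL hne hzf wn
  -- the splitting vertex carries no letter
  have wg : w g = 0 := by
    rw [← hsum, Pi.add_apply, hg₁, hg₂]; decide
  have hle : ∀ c, (c = c₁ ∨ c = c₂) → c ∈ L ∧ c g = z ∧ ∀ v, v ≠ g → c v = 0 ∨ c v = w v := by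
    rintro c (rfl | rfl)
    · refine ⟨hc₁, hg₁, fun v hv => ?_⟩
      rcases hdis v hv with h | h
      · exact Or.inl h
      · right; rw [← hsum, Pi.add_apply, h, add_zero]
    · refine ⟨hc₂, hg₂, fun v hv => ?_⟩
      rcases hdis v hv with h | h
      · right; rw [← hsum, Pi.add_apply, h, zero_add]
      · exact Or.inl h
  -- the second coordinates of a part
  have part : ∀ (α f l l' W : ZMod 2), (W = 0 → l' = 0) →
      ((α, α * f + l) = (0 : K) ∨ (α, α * f + l) = ((W, W * f + l') : K)) → l = α * l' := by decide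
  have gm : g ≠ some (Sum.inl m) := by rintro rfl; rw [wg] at wm; exact absurd wm (by simp)
  have gm' : g ≠ some (Sum.inl m') := by rintro rfl; rw [wg] at wm'; exact absurd wm' (by simp)
  have gp : g ≠ some (Sum.inr p) := by rintro rfl; rw [wg] at wp; exact absurd wp (by simp)
  have gp' : g ≠ some (Sum.inr p') := by rintro rfl; rw [wg] at wp'; exact absurd wp' (by simp)
  rcases g with _ | g | g
  · -- `g` is the root
    obtain ⟨c, hc, hcp⟩ : ∃ c, (c = c₁ ∨ c = c₂) ∧ c (some (Sum.inr p)) = 0 := by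
      rcases hdis _ gp.symm with h | h
      · exact ⟨c₁, Or.inl rfl, h⟩
      · exact ⟨c₂, Or.inr rfl, h⟩
    obtain ⟨hcL, hcg, hcle⟩ := hle c hc
    obtain ⟨S, H, hSH⟩ := hall (c + mz V₁ φ₀) (L.add_mem hcL hm) (by
      rw [Pi.add_apply, hcg]; simp only [mz]; decide)
    have hc' : c = wd A₀ A₁ a b φ₀ φ₁ S H + mz V₁ φ₀ := by
      rw [← hSH]
      funext v
      simp only [Pi.add_apply]
      generalize c v = s
      generalize mz V₁ φ₀ v = t
      revert s t; decide
    have r1 : ∀ q, c (some (Sum.inr q)) = (H q + S (a q), (H q + S (a q)) * φ₁ q + lap A₁ H q) := by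
      intro q; rw [hc', Pi.add_apply]; simp only [wd, mz, add_zero]
    have r0 : ∀ x, c (some (Sum.inl x)) = (S x + H (b x) + 1,
        (S x + H (b x) + 1) * φ₀ x + lap A₀ S x) := by
      intro x; rw [hc', Pi.add_apply]; simp only [wd, mz]
      ext
      · simp
      · simp only [Prod.snd_add]; ring
    refine piece_root h₀ h₁ (b := b) hE hχ ha ha' S H ?_ ?_ ?_
    · intro q
      have := hcle (some (Sum.inr q)) (by simp)
      rw [r1, w1] at this
      exact part _ _ _ _ _ (z1 q) this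
    · rw [r1] at hcp; exact congrArg Prod.fst hcp
    · intro x
      have := hcle (some (Sum.inl x)) (by simp)
      rw [r0, w0] at this
      exact part _ _ _ _ _ (z0 x) this
  · -- `g` in the first tree
    obtain ⟨c, hc, hcp⟩ : ∃ c, (c = c₁ ∨ c = c₂) ∧ c (some (Sum.inr p)) = 0 := by
      rcases hdis _ gp.symm with h | h
      · exact ⟨c₁, Or.inl rfl, h⟩
      · exact ⟨c₂, Or.inr rfl, h⟩
    obtain ⟨hcL, hcg, hcle⟩ := hle c hc
    have hcn : c none = 0 := by
      rcases hcle none (by simp) with h | h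
      · exact h
      · rw [h, wn]
    obtain ⟨S, H, hSH⟩ := hall c hcL hcn
    have r1 : ∀ q, c (some (Sum.inr q)) = (H q + S (a q), (H q + S (a q)) * φ₁ q + lap A₁ H q) := by
      intro q; rw [hSH]; simp only [wd]
    have r0 : ∀ x, c (some (Sum.inl x)) = (S x + H (b x), (S x + H (b x)) * φ₀ x + lap A₀ S x) := by
      intro x; rw [hSH]; simp only [wd]
    refine piece h₀ h₁ (b := b) hE hχ ha ha' S H g ?_ ?_ ?_ ?_ ?_ ?_
    · intro q
      have := hcle (some (Sum.inr q)) (by simp)
      rw [r1, w1] at this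
      exact part _ _ _ _ _ (z1 q) this
    · rw [r1] at hcp; exact congrArg Prod.fst hcp
    · intro x hx
      have := hcle (some (Sum.inl x)) (by simpa using hx)
      rw [r0, w0] at this
      exact part _ _ _ _ _ (z0 x) this
    · rw [r0] at hcg
      have h1 := congrArg Prod.fst hcg
      have h2 := congrArg Prod.snd hcg
      simp only [z] at h1 h2
      rw [h1, zero_mul, zero_add] at h2
      exact h2
    · rintro rfl; exact gm rfl
    · rintro rfl; exact gm' rfl
  · -- `g` in the second tree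
    obtain ⟨c, hc, hcp⟩ : ∃ c, (c = c₁ ∨ c = c₂) ∧ c (some (Sum.inl m)) = 0 := by
      rcases hdis _ gm.symm with h | h
      · exact ⟨c₁, Or.inl rfl, h⟩
      · exact ⟨c₂, Or.inr rfl, h⟩
    obtain ⟨hcL, hcg, hcle⟩ := hle c hc
    have hcn : c none = 0 := by
      rcases hcle none (by simp) with h | h
      · exact h
      · rw [h, wn]
    obtain ⟨S, H, hSH⟩ := hall c hcL hcn
    have r1 : ∀ q, c (some (Sum.inr q)) = (H q + S (a q), (H q + S (a q)) * φ₁ q + lap A₁ H q) := by
      intro q; rw [hSH]; simp only [wd]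
    have r0 : ∀ x, c (some (Sum.inl x)) = (S x + H (b x), (S x + H (b x)) * φ₀ x + lap A₀ S x) := by
      intro x; rw [hSH]; simp only [wd]
    refine piece h₁ h₀ (a := b) (b := a) hF hψ hb hb' H S g ?_ ?_ ?_ ?_ ?_ ?_
    · intro x
      have := hcle (some (Sum.inl x)) (by simp)
      rw [r0, w0] at this
      exact part _ _ _ _ _ (z0 x) this
    · rw [r0] at hcp; exact congrArg Prod.fst hcp
    · intro q hq
      have := hcle (some (Sum.inr q)) (by simpa using hq)
      rw [r1, w1] at this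
      exact part _ _ _ _ _ (z1 q) this
    · rw [r1] at hcg
      have h1 := congrArg Prod.fst hcg
      have h2 := congrArg Prod.snd hcg
      simp only [z] at h1 h2
      rw [h1, zero_mul, zero_add] at h2
      exact h2
    · rintro rfl; exact gp rfl
    · rintro rfl; exact gp' rfl

/-- the third alternative gives a `{0, z}`-word -/
lemma not_third (h₀ : Tr A₀) (h₁ : Tr A₁) (L : Submodule (ZMod 2) (Option (V₀ ⊕ V₁) → K))
    (hz : NoZ L) (hwd : ∀ S H, wd A₀ A₁ a b φ₀ φ₁ S H ∈ L) (hm : mz V₁ φ₀ ∈ L) :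
    ¬ ∃ m m' p p', ∃ χ : V₀ → ZMod 2, ∃ ψ : V₁ → ZMod 2, A₀ m m' = 1 ∧ A₁ p p' = 1 ∧
      IsCut A₀ m m' χ ∧ IsCut A₁ p p' ψ ∧ (∀ x, ψ (b x) = χ x + 1) ∧ ∀ y, χ (a y) = ψ y := by
  rintro ⟨m, m', p, p', χ, ψ, hE, hF, hχ, hψ, h1, h2⟩
  -- all letters on the first tree, none on the second one
  have key := hz (wd A₀ A₁ a b φ₀ φ₁ χ ψ + mz V₁ φ₀) (L.add_mem (hwd _ _) hm) (by
    rintro (_ | x | q)
    · simp [wd, mz, z]
    · simp only [Pi.add_apply, wd, mz, Prod.fst_add, h1]
      generalize χ x = c; revert c; decide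
    · simp only [Pi.add_apply, wd, mz, Prod.fst_add, h2]
      simp only [Prod.fst_zero, add_zero]
      generalize ψ q = c; revert c; decide)
  have := congrFun key none
  simp only [Pi.add_apply, wd, mz, zero_add, Pi.zero_apply] at this
  exact absurd this (by decide)

/-- **the two tree step**: the maps between the two trees are constant -/
theorem const (h₀ : Tr A₀) (h₁ : Tr A₁) (L : Submodule (ZMod 2) (Option (V₀ ⊕ V₁) → K))
    (hiso : ∀ u ∈ L, ∀ v ∈ L, form u v = 0) (hz : NoZ L)
    (hcrit : CritAt L none) (hwd : ∀ S H, wd A₀ A₁ a b φ₀ φ₁ S H ∈ L) (hm : mz V₁ φ₀ ∈ L)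
    (hall : ∀ u ∈ L, u none = 0 → ∃ S H, u = wd A₀ A₁ a b φ₀ φ₁ S H) :
    (∀ p p', a p = a p') ∧ ∀ x x', b x = b x' := by
  have hc : Comm A₀ A₁ a b := comm_of_iso h₀ h₁ (fun S H S' H' => hiso _ (hwd S H) _ (hwd S' H'))
  have np := not_positive h₀ h₁ L hcrit hwd hm hall
  have nt := not_third h₀ h₁ L hz hwd hm
  constructor
  · rcases two_trees h₀ h₁ hc with h | h | h
    · exact h
    · exact absurd h np
    · exact absurd h nt
  · rcases two_trees h₁ h₀ hc.swap with h | h | h
    · exact h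
    · exact absurd h.swap np
    · exfalso
      obtain ⟨p, p', m, m', ψ, χ, hF, hE, hψ, hχ, h1, h2⟩ := h
      -- `χ (a y) = ψ y + 1`, `ψ (b x) = χ x`: exchange the ends of the edge `m m'`
      refine nt ⟨m', m, p, p', fun x => χ x + 1, ψ, by rw [h₀.symm]; exact hE, hF, ?_, hψ, ?_, ?_⟩
      · refine ⟨?_, ?_, ?_⟩
        · show χ m' + 1 = 0
          rw [hχ.2.1]; decide
        · show χ m + 1 = 1
          rw [hχ.1]; decide
        · intro x y hxy hne
          have : χ x ≠ χ y := fun e => hne (by show χ x + 1 = χ y + 1; rw [e])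
          rcases hχ.2.2 x y hxy this with h | h
          · exact Or.inr h
          · exact Or.inl h
      · intro x
        show ψ (b x) = χ x + 1 + 1
        rw [h2]; generalize χ x = c; revert c; decide
      · intro y
        show χ (a y) + 1 = ψ y
        rw [h1]; generalize ψ y = c; revert c; decide

end

end Pool.Agent.H43.TT
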