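import Pool.Agent.H43.TT.Code
import Pool.Agent.H44.TT.Hall

set_option autoImplicit false

/-!
The two tree step with helper44's dimension count.
-/

namespace Pool.Agent.H43.TT

open Finset Pool.Agent.H98.Code

variable {V₀ V₁ : Type} [Fintype V₀] [DecidableEq V₀] [Fintype V₁] [DecidableEq V₁]
  {A₀ : V₀ → V₀ → ZMod 2} {A₁ : V₁ → V₁ → ZMod 2} {a : V₁ → V₀} {b : V₀ → V₁}
  {φ₀ : V₀ → ZMod 2} {φ₁ : V₁ → ZMod 2}

/-- **the two tree step**: the maps between the two trees are constant -/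
theorem const' [Nonempty V₀] (h₀ : Tr A₀) (h₁ : Tr A₁)
    (L : Submodule (ZMod 2) (Option (V₀ ⊕ V₁) → K))
    (hiso : ∀ u ∈ L, ∀ v ∈ L, form u v = 0) (hz : NoZ L) (hcrit : CritAt L none)
    (hwd : ∀ S H, wd A₀ A₁ a b φ₀ φ₁ S H ∈ L) (hm : mz V₁ φ₀ ∈ L) :
    (∀ p p', a p = a p') ∧ ∀ x x', b x = b x' :=
  const h₀ h₁ L hiso hz hcrit hwd hm (fun u hu hun =>
    Pool.Agent.H44.TT.hall (lap A₀) (lap A₁) h₀.ker h₁.ker a b φ₀ φ₁ hz (wd A₀ A₁ a b φ₀ φ₁)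
      (fun _ _ => rfl) (fun _ _ _ => rfl) (fun _ _ _ => rfl) hwd (mz V₁ φ₀) hm rfl
      (fun _ => rfl) (fun _ => rfl) u hu hun)

end Pool.Agent.H43.TT
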